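import Pool.Agent.Helper13.RG.All

/-!
# Rigidity of birational sections over number fields: final form
-/

set_option autoImplicit false

namespace Pool.Agent.Helper13.RG

open Pool.Agent.Helper14.BSC

theorem top_unique {k K₁ K₂ kb Ω : Type} [Field k] [NumberField k] [Field K₁] [Field K₂] [Field kb]
    [Field Ω] [Algebra k K₁] [Algebra k K₂] [Algebra k kb] [Algebra kb Ω] [Algebra k Ω] [Algebra K₁ Ω]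
    [Algebra K₂ Ω] [IsScalarTower k K₁ Ω] [IsScalarTower k K₂ Ω] [IsScalarTower k kb Ω]
    [Algebra.IsAlgebraic K₁ Ω] [Algebra.IsAlgebraic K₂ Ω] [IsAlgClosure k kb] [IsAlgClosed Ω]
    (ht₁ : ∃ t : K₁, Transcendental k t ∧ Algebra.IsAlgebraic (IntermediateField.adjoin k {t}) K₁)
    (ht₂ : ∃ t : K₂, Transcendental k t ∧ Algebra.IsAlgebraic (IntermediateField.adjoin k {t}) K₂)
    (s₁ : (kb ≃ₐ[k] kb) →* (Ω ≃ₐ[K₁] Ω)) (s₂ : (kb ≃ₐ[k] kb) →* (Ω ≃ₐ[K₂] Ω))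
    (hs₁ : Gen.IsSection s₁) (hs₂ : Gen.IsSection s₂) (hg₁ : ¬ ∃ O, GeoAt s₁ O)
    (hg₂ : ¬ ∃ O, GeoAt s₂ O) (x₁ x₂ : Ω) (hx₁ : ∀ g, s₁ g x₁ = x₁) (hx₂ : ∀ g, s₂ g x₂ = x₂)
    (hn₁ : x₁ ∉ (algebraMap k Ω).range) (hn₂ : x₂ ∉ (algebraMap k Ω).range)
    (hd : ¬ NumberField.Set.HasDirichletDensity {v | CongAt s₁ s₂ v x₁ x₂} 0) :
    (∃! γ : Ω ≃ₐ[kb] Ω, ∀ (g : kb ≃ₐ[k] kb) (x : Ω), γ (s₁ g x) = s₂ g (γ x)) ∧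
      ∀ γ : Ω ≃ₐ[kb] Ω, (∀ (g : kb ≃ₐ[k] kb) (x : Ω), γ (s₁ g x) = s₂ g (γ x)) → γ x₁ = x₂ := by
  obtain ⟨γ, ⟨h1, h2⟩, h3, h4⟩ := rg_I k K₁ K₂ kb Ω ht₁ ht₂ s₁ s₂ hs₁ hs₂ hg₁ hg₂ x₁ x₂ hx₁ hx₂ hn₁ hn₂ hd
  have h5 : ∀ γ' : Ω ≃ₐ[kb] Ω, (∀ (g : kb ≃ₐ[k] kb) (x : Ω), γ' (s₁ g x) = s₂ g (γ' x)) →
      ∀ x, γ' x = γ x := by
    intro γ' h x
    have h6 := h4 (γ'.restrictScalars k) (fun a => γ'.commutes a) h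
    exact congrArg (fun e : Ω ≃ₐ[k] Ω => e x) h6
  refine ⟨⟨{ (γ : Ω ≃+* Ω) with commutes' := h1 }, h2, fun γ' h => ?_⟩, fun γ' h => ?_⟩
  · ext x
    exact h5 γ' h x
  · rw [h5 γ' h x₁, h3]

end Pool.Agent.Helper13.RG
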