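import Pool.Agent.Helper13.RG.Stmts

/-!
# Uniqueness of the conjugating automorphism
-/

set_option autoImplicit false

open scoped Classical

namespace Pool.Agent.Helper13.RG

open Pool.Agent.Helper14.BSC Pool.Agent.Helper13.ZL

/-- UNG: the centralizer of a nongeometric section in `Aut(Ω / kb)` is trivial. -/
def ST_UNG : Prop :=
  ∀ (k Ω : Type) [Field k] [NumberField k] [Field Ω] [Algebra k Ω] [IsAlgClosed Ω] (D : Sec k Ω),
    NG D → ∀ γ : Ω ≃ₐ[k] Ω, (∀ a : Acl k Ω, γ (a : Ω) = a) →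
      (∀ (g : GG k Ω) (x : Ω), γ (D.s g x) = D.s g (γ x)) → γ = 1

theorem st_UNG (hTRP : ST_TRP) (hUNQ : Pool.Agent.Helper22.TW.ST_UNQ) (hUNE : ST_UNE)
    (hAUT : ST_AUT) : ST_UNG := by
  intro k Ω _ _ _ _ _ D hN γ ha hc
  have hmem : ∀ x : LL D, γ (x : Ω) ∈ LL D := by
    intro x g hg
    rw [← hc, x.2 g hg]
  let G : LL D →+* LL D :=
    { toFun := fun x => ⟨γ (x : Ω), hmem x⟩
      map_one' := Subtype.ext (map_one γ)
      map_mul' := fun a b => Subtype.ext (map_mul γ _ _)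
      map_zero' := Subtype.ext (map_zero γ)
      map_add' := fun a b => Subtype.ext (map_add γ _ _) }
  have hG : ∀ c, G (algebraMap k (LL D) c) = algebraMap k (LL D) (RingHom.id k c) := by
    intro c
    apply Subtype.ext
    exact γ.commutes c
  have hall : ∀ x : LL D, AllSame D D x (G x) := by
    intro x p _ σ P P'
    obtain ⟨P'', h⟩ : ∃ P'' : Place D p σ, ∀ y : LL D, (G y ∈ P'.C ↔ y ∈ P''.C) ∧
        ∀ (h : G y ∈ P'.C) (hy : y ∈ P''.C), P'.φ ⟨G y, h⟩ = P''.φ ⟨y, hy⟩ := by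
      have h0 := hTRP k Ω D p σ P' (RingHom.id k) G hG
      have e : σ.comp (RingHom.id k) = σ := RingHom.comp_id σ
      rw [e] at h0
      exact h0
    obtain ⟨h1, h2⟩ := hUNQ k Ω D p σ P P''
    refine ⟨by rw [h1]; exact (h x).1.symm, fun hx hy => ?_⟩
    have hx' : x ∈ P''.C := by rwa [h1] at hx
    rw [h2 x hx hx', (h x).2 hy hx']
  have hself : ∀ x : LL D, AllSame D D x x := by
    intro x p _ σ P P'
    obtain ⟨h1, h2⟩ := hUNQ k Ω D p σ P P'
    exact ⟨by rw [h1], fun hx hy => h2 x hx hy⟩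
  have hfix : ∀ x : LL D, γ (x : Ω) = x := by
    intro x
    have h := (hUNE k Ω D hN).2.1 D x x (G x) (hself x) (hall x)
    exact (congrArg Subtype.val h).symm
  exact hAUT k Ω D γ hfix ha

end Pool.Agent.Helper13.RG
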