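import Pool.Agent.Helper14.BSC.TopKb
import Pool.Agent.Helper13.RG.UNG

/-!
# Rigidity of birational sections over number fields: the theorem
-/

set_option autoImplicit false

open scoped Classical

namespace Pool.Agent.Helper13.RG

open Pool.Agent.Helper14.BSC Pool.Agent.Helper13.ZL

theorem st_SYM : ST_SYM := by
  intro k Ω _ _ _ D D' x y h p _ σ P P'
  obtain ⟨h1, h2⟩ := h p σ P' P
  exact ⟨h1.symm, fun hx hy => (h2 hy hx).symm⟩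

theorem st_PEX (hCLO : ST_CLO) (hRK : ST_RK) : ST_PEX := by
  intro k Ω _ _ _ _ _ D p _ σ
  obtain ⟨E₀, hf, hE, -⟩ := hCLO k p σ
  obtain ⟨P, -⟩ := hRK k Ω D p σ E₀ hf hE
  exact ⟨P⟩

section

variable {k K K₁ K₂ kb Ω : Type} [Field k] [Field K] [Field K₁] [Field K₂] [Field kb] [Field Ω]
  [Algebra k K] [Algebra k kb] [Algebra kb Ω] [Algebra k Ω] [Algebra K Ω] [Algebra K₁ Ω] [Algebra K₂ Ω]

/-- `s` is geometric at the rational place `O` -/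
def GeoAt (s : (kb ≃ₐ[k] kb) →* (Ω ≃ₐ[K] Ω)) (O : ValuationSubring K) : Prop :=
  O ≠ ⊤ ∧ (∀ c : k, algebraMap k K c ∈ O) ∧
    (∀ a ∈ O, ∃ c : k, O.valuation (a - algebraMap k K c) < 1) ∧
    ∃ W : ValuationSubring Ω, W.comap (algebraMap K Ω) = O ∧
      ∀ (g : kb ≃ₐ[k] kb) (x : Ω), (s g x ∈ W ↔ x ∈ W)

/-- the Kummer classes of `x₁` (at `s₁`) and `x₂` (at `s₂`) are congruent modulo `v` -/
def CongAt [NumberField k] (s₁ : (kb ≃ₐ[k] kb) →* (Ω ≃ₐ[K₁] Ω)) (s₂ : (kb ≃ₐ[k] kb) →* (Ω ≃ₐ[K₂] Ω))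
    (v : IsDedekindDomain.HeightOneSpectrum (NumberField.RingOfIntegers k)) (x₁ x₂ : Ω) : Prop :=
  ∀ n : ℕ, 0 < n → ∃ (b₁ b₂ : k) (g₁ g₂ : Ω), (∀ g, s₁ g g₁ = g₁) ∧ (∀ g, s₂ g g₂ = g₂) ∧
    x₁ = algebraMap k Ω b₁ * g₁ ^ n ∧ x₂ = algebraMap k Ω b₂ * g₂ ^ n ∧
    v.valuation k (b₁ / b₂ - 1) < 1

end

section

variable {k K kb Ω : Type} [Field k] [NumberField k] [Field K] [Field kb] [Field Ω]
  [Algebra k K] [Algebra k kb] [Algebra kb Ω] [Algebra k Ω] [Algebra K Ω]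
  [IsScalarTower k K Ω] [IsScalarTower k kb Ω] [Algebra.IsAlgebraic K Ω] [IsAlgClosure k kb]
  [IsAlgClosed Ω]

theorem fix_K (s : (kb ≃ₐ[k] kb) →* (Ω ≃ₐ[K] Ω)) (hs : Gen.IsSection s) (g : GG k Ω) (x : K) :
    (Gen.topD s hs).s g (algebraMap K Ω x) = algebraMap K Ω x := by
  rw [Gen.topD_s]
  exact AlgEquiv.commutes _ _

theorem mem_K (s : (kb ≃ₐ[k] kb) →* (Ω ≃ₐ[K] Ω)) (hs : Gen.IsSection s) (x : K) :
    algebraMap K Ω x ∈ LL (Gen.topD s hs) := fun g _ => fix_K s hs g x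

theorem alg_LL (s : (kb ≃ₐ[k] kb) →* (Ω ≃ₐ[K] Ω)) (hs : Gen.IsSection s) (x : Ω) :
    IsAlgebraic (LL (Gen.topD s hs)) x := by
  obtain ⟨P, hP, hx⟩ := (Algebra.IsAlgebraic.isAlgebraic (R := K) x)
  let i : K →+* LL (Gen.topD s hs) :=
    { toFun := fun y => ⟨algebraMap K Ω y, mem_K s hs y⟩
      map_one' := Subtype.ext (map_one _)
      map_mul' := fun a b => Subtype.ext (map_mul _ a b)
      map_zero' := Subtype.ext (map_zero _)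
      map_add' := fun a b => Subtype.ext (map_add _ a b) }
  refine ⟨P.map i, (Polynomial.map_ne_zero_iff i.injective).2 hP, ?_⟩
  have hi : (algebraMap (LL (Gen.topD s hs)) Ω).comp i = algebraMap K Ω := by
    ext y
    rfl
  rw [Polynomial.aeval_def, Polynomial.eval₂_map, hi, ← Polynomial.aeval_def, hx]

theorem ng_of (hZLD : ST_ZLD)
    (ht : ∃ t : K, Transcendental k t ∧ Algebra.IsAlgebraic (IntermediateField.adjoin k {t}) K)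
    (s : (kb ≃ₐ[k] kb) →* (Ω ≃ₐ[K] Ω)) (hs : Gen.IsSection s) (h : ¬ ∃ O, GeoAt s O) :
    NG (Gen.topD s hs) := by
  intro x hx
  by_contra hc
  apply h
  obtain ⟨O, hO⟩ := (hZLD k K Ω (Gen.topD s hs) ht (fix_K s hs)).2 ⟨x, hx, hc⟩
  exact ⟨O, (Gen.top_geo s hs O).2 hO⟩

theorem nc_of {D : Sec k Ω} (x : LL D) (hx : (x : Ω) ∉ (algebraMap k Ω).range) : NC D x := by
  rintro c rfl
  exact hx ⟨c, rfl⟩

end

section

variable {k K₁ K₂ kb Ω : Type} [Field k] [NumberField k] [Field K₁] [Field K₂] [Field kb] [Field Ω]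
  [Algebra k K₁] [Algebra k K₂] [Algebra k kb] [Algebra kb Ω] [Algebra k Ω] [Algebra K₁ Ω]
  [Algebra K₂ Ω] [IsScalarTower k K₁ Ω] [IsScalarTower k K₂ Ω] [IsScalarTower k kb Ω]
  [Algebra.IsAlgebraic K₁ Ω] [Algebra.IsAlgebraic K₂ Ω] [IsAlgClosure k kb] [IsAlgClosed Ω]

theorem ce_iff (s₁ : (kb ≃ₐ[k] kb) →* (Ω ≃ₐ[K₁] Ω)) (hs₁ : Gen.IsSection s₁)
    (s₂ : (kb ≃ₐ[k] kb) →* (Ω ≃ₐ[K₂] Ω)) (hs₂ : Gen.IsSection s₂) (v : Pl k)
    (x₁ : LL (Gen.topD s₁ hs₁)) (x₂ : LL (Gen.topD s₂ hs₂)) :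
    CongAt s₁ s₂ v (x₁ : Ω) (x₂ : Ω) ↔ CE (Gen.topD s₁ hs₁) (Gen.topD s₂ hs₂) v x₁ x₂ := by
  constructor
  · intro h n hn
    obtain ⟨b₁, b₂, g₁, g₂, h1, h2, h3, h4, h5⟩ := h n hn
    exact ⟨b₁, b₂, ⟨g₁, (Gen.top_mem s₁ hs₁ g₁).2 h1⟩, ⟨g₂, (Gen.top_mem s₂ hs₂ g₂).2 h2⟩,
      Subtype.ext h3, Subtype.ext h4, h5⟩
  · intro h n hn
    obtain ⟨b₁, b₂, g₁, g₂, h3, h4, h5⟩ := h n hn
    refine ⟨b₁, b₂, g₁, g₂, (Gen.top_mem s₁ hs₁ g₁).1 g₁.2, (Gen.top_mem s₂ hs₂ g₂).1 g₂.2, ?_, ?_, h5⟩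
    · rw [h3]; rfl
    · rw [h4]; rfl

end

theorem ce_symm {k Ω : Type} [Field k] [NumberField k] [Field Ω] [Algebra k Ω] {D D' : Sec k Ω}
    {v : Pl k} {x : LL D} {y : LL D'} (h : CE D D' v x y) : CE D' D v y x := by
  intro n hn
  obtain ⟨b, b', g, g', h1, h2, h3⟩ := h n hn
  refine ⟨b', b, g', g, h2, h1, ?_⟩
  unfold Near at h3 ⊢
  have hv1 : v.valuation k (b / b') = 1 := by
    have h4 : b / b' = 1 + (b / b' - 1) := by ring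
    rw [h4, Valuation.map_add_eq_of_lt_left _ (by rwa [map_one]), map_one]
  have hne : b / b' ≠ 0 := by
    intro h0
    rw [h0, map_zero] at hv1
    exact zero_ne_one hv1
  have hb : b ≠ 0 := by
    rintro rfl
    exact hne (zero_div _)
  have hb' : b' ≠ 0 := by
    rintro rfl
    exact hne (div_zero _)
  have h5 : b' / b - 1 = - (b / b' - 1) * (b / b')⁻¹ := by
    rw [inv_div, neg_sub, sub_mul, one_mul, div_mul_div_comm, mul_comm b b', div_self (mul_ne_zero hb' hb)]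
  rw [h5, map_mul, Valuation.map_neg, map_inv₀, hv1, inv_one, mul_one]
  exact h3

/-- the theorem, part I: two nongeometric sections -/
def ST_I : Prop :=
  ∀ (k K₁ K₂ kb Ω : Type) [Field k] [NumberField k] [Field K₁] [Field K₂] [Field kb] [Field Ω]
    [Algebra k K₁] [Algebra k K₂] [Algebra k kb] [Algebra kb Ω] [Algebra k Ω] [Algebra K₁ Ω]
    [Algebra K₂ Ω] [IsScalarTower k K₁ Ω] [IsScalarTower k K₂ Ω] [IsScalarTower k kb Ω]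
    [Algebra.IsAlgebraic K₁ Ω] [Algebra.IsAlgebraic K₂ Ω] [IsAlgClosure k kb] [IsAlgClosed Ω],
    (∃ t : K₁, Transcendental k t ∧ Algebra.IsAlgebraic (IntermediateField.adjoin k {t}) K₁) →
    (∃ t : K₂, Transcendental k t ∧ Algebra.IsAlgebraic (IntermediateField.adjoin k {t}) K₂) →
    ∀ (s₁ : (kb ≃ₐ[k] kb) →* (Ω ≃ₐ[K₁] Ω)) (s₂ : (kb ≃ₐ[k] kb) →* (Ω ≃ₐ[K₂] Ω)),
    Gen.IsSection s₁ → Gen.IsSection s₂ → (¬ ∃ O, GeoAt s₁ O) → (¬ ∃ O, GeoAt s₂ O) →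
    ∀ x₁ x₂ : Ω, (∀ g, s₁ g x₁ = x₁) → (∀ g, s₂ g x₂ = x₂) → x₁ ∉ (algebraMap k Ω).range →
      x₂ ∉ (algebraMap k Ω).range →
      ¬ NumberField.Set.HasDirichletDensity {v | CongAt s₁ s₂ v x₁ x₂} 0 →
      ∃ γ : Ω ≃ₐ[k] Ω, ((∀ a : kb, γ (algebraMap kb Ω a) = algebraMap kb Ω a) ∧
        ∀ (g : kb ≃ₐ[k] kb) (x : Ω), γ (s₁ g x) = s₂ g (γ x)) ∧ γ x₁ = x₂ ∧
        ∀ γ' : Ω ≃ₐ[k] Ω, (∀ a : kb, γ' (algebraMap kb Ω a) = algebraMap kb Ω a) →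
          (∀ (g : kb ≃ₐ[k] kb) (x : Ω), γ' (s₁ g x) = s₂ g (γ' x)) → γ' = γ

/-- part II: two sections of the same function field -/
def ST_II : Prop :=
  ∀ (k K kb Ω : Type) [Field k] [NumberField k] [Field K] [Field kb] [Field Ω]
    [Algebra k K] [Algebra k kb] [Algebra kb Ω] [Algebra k Ω] [Algebra K Ω]
    [IsScalarTower k K Ω] [IsScalarTower k kb Ω]
    [Algebra.IsAlgebraic K Ω] [IsAlgClosure k kb] [IsAlgClosed Ω],
    (∃ t : K, Transcendental k t ∧ Algebra.IsAlgebraic (IntermediateField.adjoin k {t}) K) →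
    ∀ (s s' : (kb ≃ₐ[k] kb) →* (Ω ≃ₐ[K] Ω)),
    Gen.IsSection s → Gen.IsSection s' →
    (∀ f : K, f ∉ (algebraMap k K).range →
      ¬ NumberField.Set.HasDirichletDensity
        {v | CongAt s s' v (algebraMap K Ω f) (algebraMap K Ω f)} 0) →
      (∃ γ : Ω ≃ₐ[K] Ω, (∀ a : kb, γ (algebraMap kb Ω a) = algebraMap kb Ω a) ∧
        ∀ (g : kb ≃ₐ[k] kb) (x : Ω), γ (s g x) = s' g (γ x)) ∨
      ∃ O : ValuationSubring K, GeoAt s O ∧ GeoAt s' O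

theorem st_I (hRIGD : ST_RIGD) (hTCV : ST_TCV) (hZLD : ST_ZLD) (hALG : ST_ALG) (hUNG : ST_UNG) :
    ST_I := by
  intro k K₁ K₂ kb Ω _ _ _ _ _ _ _ _ _ _ _ _ _ _ _ _ _ _ _ _ ht₁ ht₂ s₁ s₂ hs₁ hs₂ hg₁ hg₂ x₁ x₂
    hx₁ hx₂ hn₁ hn₂ hd
  have hN₁ := ng_of hZLD ht₁ s₁ hs₁ hg₁
  have hN₂ := ng_of hZLD ht₂ s₂ hs₂ hg₂
  obtain ⟨y₁, hy₁⟩ : ∃ y : LL (Gen.topD s₁ hs₁), (y : Ω) = x₁ := ⟨⟨x₁, (Gen.top_mem s₁ hs₁ x₁).2 hx₁⟩, rfl⟩
  obtain ⟨y₂, hy₂⟩ : ∃ y : LL (Gen.topD s₂ hs₂), (y : Ω) = x₂ := ⟨⟨x₂, (Gen.top_mem s₂ hs₂ x₂).2 hx₂⟩, rfl⟩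
  have hnc₁ : NC (Gen.topD s₁ hs₁) y₁ := nc_of y₁ (by rwa [hy₁])
  have hnc₂ : NC (Gen.topD s₂ hs₂) y₂ := nc_of y₂ (by rwa [hy₂])
  obtain ⟨γ, h1, h2, h3⟩ := hRIGD k Ω (Gen.topD s₁ hs₁) (Gen.topD s₂ hs₂) hN₁ hN₂ (alg_LL s₁ hs₁)
    (alg_LL s₂ hs₂) (fun y z hy => hALG k K₁ Ω (Gen.topD s₁ hs₁) ht₁ y z hy)
    (fun y z hy => hALG k K₂ Ω (Gen.topD s₂ hs₂) ht₂ y z hy)
    {(y₁, y₂)} ⟨_, rfl⟩ (by
      intro r hr
      rw [Set.mem_singleton_iff] at hr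
      subst hr
      refine ⟨hnc₁, hnc₂, hTCV k Ω _ _ hN₁ hN₂ y₁ y₂ hnc₁ hnc₂ ?_⟩
      have h6 : {v : Pl k | CE (Gen.topD s₁ hs₁) (Gen.topD s₂ hs₂) v y₁ y₂} =
          {v | CongAt s₁ s₂ v x₁ x₂} := by
        ext v
        rw [← hy₁, ← hy₂]
        exact (ce_iff s₁ hs₁ s₂ hs₂ v y₁ y₂).symm
      rw [h6]
      exact hd)
  have hcov : ∀ a : Acl k Ω, ∃ b : kb, algebraMap kb Ω b = (a : Ω) := by
    intro a
    obtain ⟨b, rfl⟩ := (Gen.topE k kb Ω).surjective a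
    exact ⟨b, (Gen.topE_coe b).symm⟩
  refine ⟨γ, ⟨fun a => ?_, fun g x => ?_⟩, ?_, fun γ' h1' h3' => ?_⟩
  · rw [← Gen.topE_coe (k := k) (kb := kb) (Ω := Ω)]
    exact h1 _
  · have h4 := h3 (AlgEquiv.autCongr (Gen.topE k kb Ω) g) x
    rwa [Gen.topD_s, Gen.topD_s, MulEquiv.symm_apply_apply] at h4
  · have h4 := h2 (y₁, y₂) rfl
    rwa [hy₁, hy₂] at h4
  · have h7 := hUNG k Ω (Gen.topD s₁ hs₁) hN₁ (γ'⁻¹ * γ) (fun a => ?_) (fun g x => ?_)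
    · rw [inv_mul_eq_one] at h7
      exact h7
    · rw [AlgEquiv.mul_apply, h1 a]
      obtain ⟨b, hb⟩ := hcov a
      rw [← hb]
      show γ'.symm (algebraMap kb Ω b) = _
      rw [AlgEquiv.symm_apply_eq, h1' b]
    · rw [AlgEquiv.mul_apply, AlgEquiv.mul_apply, h3 g x]
      show γ'.symm _ = (Gen.topD s₁ hs₁).s g (γ'.symm _)
      rw [AlgEquiv.symm_apply_eq, Gen.topD_s s₁, h3', AlgEquiv.apply_symm_apply]
      rfl

theorem st_II (hI : ST_I) (hGEO : ST_GEO) : ST_II := by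
  intro k K kb Ω _ _ _ _ _ _ _ _ _ _ _ _ _ _ _ ht s s' hs hs' hf
  have hmem : ∀ f : K, algebraMap K Ω f ∈ (algebraMap k Ω).range → f ∈ (algebraMap k K).range := by
    rintro f ⟨c, hc⟩
    refine ⟨c, (algebraMap K Ω).injective ?_⟩
    rw [← hc, ← IsScalarTower.algebraMap_apply]
  by_cases hg : ∃ O, GeoAt s O
  · right
    obtain ⟨O, hO⟩ := hg
    refine ⟨O, hO, (Gen.top_geo s' hs' O).2 ?_⟩
    refine hGEO k K Ω (Gen.topD s hs) (Gen.topD s' hs') ht (fix_K s hs) (fix_K s' hs') ?_ O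
      ((Gen.top_geo s hs O).1 hO)
    intro f hfk x y hx hy hN
    apply hf f hfk
    have h6 : {v : Pl k | CE (Gen.topD s hs) (Gen.topD s' hs') v x y} =
        {v | CongAt s s' v (algebraMap K Ω f) (algebraMap K Ω f)} := by
      ext v
      have := (ce_iff s hs s' hs' v x y).symm
      rw [hx, hy] at this
      exact this
    rw [← h6]
    exact hN
  by_cases hg' : ∃ O, GeoAt s' O
  · exfalso
    apply hg
    obtain ⟨O, hO⟩ := hg'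
    refine ⟨O, (Gen.top_geo s hs O).2 ?_⟩
    refine hGEO k K Ω (Gen.topD s' hs') (Gen.topD s hs) ht (fix_K s' hs') (fix_K s hs) ?_ O
      ((Gen.top_geo s' hs' O).1 hO)
    intro f hfk x y hx hy hN
    apply hf f hfk
    have h6 : {v : Pl k | CE (Gen.topD s' hs') (Gen.topD s hs) v x y} =
        {v | CongAt s s' v (algebraMap K Ω f) (algebraMap K Ω f)} := by
      ext v
      have := (ce_iff s hs s' hs' v y x).symm
      rw [hx, hy] at this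
      exact ⟨fun h => this.1 (ce_symm h), fun h => ce_symm (this.2 h)⟩
    rw [← h6]
    exact hN
  · left
    obtain ⟨t, htr, -⟩ := id ht
    have htk : t ∉ (algebraMap k K).range := by
      rintro ⟨c, rfl⟩
      exact htr (isAlgebraic_algebraMap c)
    have hmain := fun (f : K) (hfk : f ∉ (algebraMap k K).range) =>
      hI k K K kb Ω ht ht s s' hs hs' hg hg' (algebraMap K Ω f) (algebraMap K Ω f)
        (fun g => AlgEquiv.commutes _ _) (fun g => AlgEquiv.commutes _ _)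
        (fun h => hfk (hmem f h)) (fun h => hfk (hmem f h)) (hf f hfk)
    obtain ⟨γ, ⟨h1, h3⟩, -, h5⟩ := hmain t htk
    have h4 : ∀ f : K, γ (algebraMap K Ω f) = algebraMap K Ω f := by
      intro f
      by_cases hfk : f ∈ (algebraMap k K).range
      · obtain ⟨c, rfl⟩ := hfk
        rw [← IsScalarTower.algebraMap_apply, AlgEquiv.commutes]
      · obtain ⟨γ', ⟨h1', h3'⟩, h2', -⟩ := hmain f hfk
        rw [h5 γ' h1' h3'] at h2'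
        exact h2'
    exact ⟨{ (γ : Ω ≃+* Ω) with commutes' := h4 }, h1, h3⟩

end Pool.Agent.Helper13.RG
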