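import Pool.Agent.Helper13.RG.Stmts

set_option autoImplicit false

open scoped Classical

namespace Pool.Agent.Helper13.RG

open Pool.Agent.Helper14.BSC Pool.Agent.Helper13.ZL

/-- the common argument: an identity of values which holds whenever two given elements have finite values -/
theorem iso_core (hNUL : ST_NUL) (hUNE : ST_UNE) (hVEMB : ST_VEMB) (hPEX : ST_PEX) (hDLIB : ST_DLIB)
    {k Ω : Type} [Field k] [NumberField k] [Field Ω] [Algebra k Ω] [IsAlgClosed Ω] (D D' : Sec k Ω)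
    (hN : NG D) (hN' : NG D') (x₁ x₂ : LL D) (z w : LL D')
    (h : ∀ (p : ℕ) [Fact p.Prime] (σ : k →+* ℂ_[p]) (P : Place D p σ) (P' : Place D' p σ),
      x₁ ∈ P.C → x₂ ∈ P.C → ∃ (hz : z ∈ P'.C) (hw : w ∈ P'.C), P'.φ ⟨z, hz⟩ = P'.φ ⟨w, hw⟩) : z = w := by
  obtain ⟨hsub, huni, -, hU⟩ := hDLIB k
  apply (hUNE k Ω D' hN').1 z w
  intro hnull
  apply hU
  have hI := (hNUL k Ω D hN).2.1
  refine hsub _ _ ?_ (huni _ _ (huni _ _ (hI x₁) (hI x₂)) hnull)
  intro v _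
  obtain ⟨p, hp, σ, E₀, hv, -, -⟩ := hVEMB k v
  obtain ⟨P⟩ := hPEX k Ω D p σ
  obtain ⟨P'⟩ := hPEX k Ω D' p σ
  by_cases h1 : x₁ ∈ P.C
  · by_cases h2 : x₂ ∈ P.C
    · obtain ⟨hz, hw, he⟩ := h p σ P P' h1 h2
      exact Or.inr ⟨p, hp, σ, P', hz, hw, hv, he⟩
    · exact Or.inl (Or.inr ⟨p, hp, σ, P, hv, h2⟩)
  · exact Or.inl (Or.inl ⟨p, hp, σ, P, hv, h1⟩)

theorem st_ISO (hNUL : ST_NUL) (hUNE : ST_UNE) (hVEMB : ST_VEMB) (hPEX : ST_PEX) (hDLIB : ST_DLIB) :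
    ST_ISO := by
  intro k Ω _ _ _ _ _ D D' hN hN' hex hex'
  choose f hf using hex
  choose g hg using hex'
  have hsymm : ∀ (x : LL D) (y : LL D'), AllSame D' D y x → AllSame D D' x y := by
    intro x y h p _ σ P P'
    obtain ⟨h1, h2⟩ := h p σ P' P
    exact ⟨h1.symm, fun hx hy => (h2 hy hx).symm⟩
  have hsymm' : ∀ (x : LL D) (y : LL D'), AllSame D D' x y → AllSame D' D y x := by
    intro x y h p _ σ P P'
    obtain ⟨h1, h2⟩ := h p σ P' P
    exact ⟨h1.symm, fun hx hy => (h2 hy hx).symm⟩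
  have huniq : ∀ (x : LL D) (y : LL D'), AllSame D D' x y → f x = y := by
    intro x y h
    exact (hUNE k Ω D' hN').2.1 D x (f x) y (hf x) h
  have huniq' : ∀ (x : LL D) (y : LL D'), AllSame D D' x y → g y = x := by
    intro x y h
    have h1 := hg y
    exact (hUNE k Ω D hN).2.1 D' y (g y) x h1 (hsymm' x y h)
  have hlift : ∀ (x : LL D) (p : ℕ) [Fact p.Prime] (σ : k →+* ℂ_[p]) (P : Place D p σ)
      (P' : Place D' p σ) (hx : x ∈ P.C), ∃ hy : f x ∈ P'.C, P'.φ ⟨f x, hy⟩ = P.φ ⟨x, hx⟩ := by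
    intro x p _ σ P P' hx
    obtain ⟨h1, h2⟩ := hf x p σ P P'
    exact ⟨h1.1 hx, (h2 hx (h1.1 hx)).symm⟩
  let e : LL D ≃ₐ[k] LL D' :=
    { toFun := f
      invFun := g
      left_inv := fun x => huniq' x (f x) (hf x)
      right_inv := fun y => huniq (g y) y (hsymm _ _ (hg y))
      map_mul' := fun a b => by
        apply iso_core hNUL hUNE hVEMB hPEX hDLIB D D' hN hN' a b
        intro p _ σ P P' ha hb
        obtain ⟨h1, e1⟩ := hlift a p σ P P' ha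
        obtain ⟨h2, e2⟩ := hlift b p σ P P' hb
        obtain ⟨h3, e3⟩ := hlift (a * b) p σ P P' (mul_mem ha hb)
        refine ⟨h3, mul_mem h1 h2, ?_⟩
        rw [e3]
        have h4 : (⟨f a * f b, mul_mem h1 h2⟩ : P'.C) = ⟨f a, h1⟩ * ⟨f b, h2⟩ := rfl
        have h5 : (⟨a * b, mul_mem ha hb⟩ : P.C) = ⟨a, ha⟩ * ⟨b, hb⟩ := rfl
        rw [h4, h5, map_mul, map_mul, e1, e2]
      map_add' := fun a b => by
        apply iso_core hNUL hUNE hVEMB hPEX hDLIB D D' hN hN' a b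
        intro p _ σ P P' ha hb
        obtain ⟨h1, e1⟩ := hlift a p σ P P' ha
        obtain ⟨h2, e2⟩ := hlift b p σ P P' hb
        obtain ⟨h3, e3⟩ := hlift (a + b) p σ P P' (add_mem ha hb)
        refine ⟨h3, add_mem h1 h2, ?_⟩
        rw [e3]
        have h4 : (⟨f a + f b, add_mem h1 h2⟩ : P'.C) = ⟨f a, h1⟩ + ⟨f b, h2⟩ := rfl
        have h5 : (⟨a + b, add_mem ha hb⟩ : P.C) = ⟨a, ha⟩ + ⟨b, hb⟩ := rfl
        rw [h4, h5, map_add, map_add, e1, e2]
      commutes' := fun c => by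
        apply huniq
        intro p _ σ P P'
        obtain ⟨h1, e1⟩ := P.base c
        obtain ⟨h2, e2⟩ := P'.base c
        refine ⟨⟨fun _ => h2, fun _ => h1⟩, fun hx hy => ?_⟩
        exact e1.trans e2.symm }
  exact ⟨e, fun x y h => huniq x y h⟩

end Pool.Agent.Helper13.RG
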