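import Pool.Agent.Helper13.RG.Stmts

set_option autoImplicit false

namespace Pool.Agent.Helper13.RG

open Pool.Agent.Helper14.BSC Pool.Agent.Helper13.ZL

theorem st_TRV (hTRP : ST_TRP) : ST_TRV := by
  intro k k₁ Ω _ _ _ _ _ j D D₁ hB g x y hxy p _ σ P
  classical
  choose τ hτ using hB.stk g
  have hinj := (algebraMap k₁ Ω).injective
  let T : k₁ →+* k₁ :=
    { toFun := τ
      map_one' := hinj (by rw [← hτ, map_one, map_one])
      map_mul' := fun a b => hinj (by rw [← hτ, map_mul, map_mul, hτ, hτ, map_mul])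
      map_zero' := hinj (by rw [← hτ, map_zero, map_zero])
      map_add' := fun a b => hinj (by rw [← hτ, map_add, map_add, hτ, hτ, map_add]) }
  let G : LL D₁ →+* LL D₁ :=
    { toFun := fun z => ⟨D.s g (z : Ω), hB.stL g z z.2⟩
      map_one' := Subtype.ext (map_one _)
      map_mul' := fun a b => Subtype.ext (map_mul _ _ _)
      map_zero' := Subtype.ext (map_zero _)
      map_add' := fun a b => Subtype.ext (map_add _ _ _) }
  obtain ⟨P', h⟩ := hTRP k₁ Ω D₁ p σ P T G (fun c => Subtype.ext (hτ c))
  have hGx : G x = y := Subtype.ext hxy.symm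
  refine ⟨σ.comp T, P', fun c => ?_, ?_, ?_⟩
  · have h1 : T (j c) = j c := by
      apply hinj
      show algebraMap k₁ Ω (τ (j c)) = _
      rw [← hτ, hB.hj, AlgEquiv.commutes]
    show σ (T (j c)) = _
    rw [h1]
  · rw [← hGx]
    exact (h x).1
  · intro hy hx
    subst hGx
    exact (h x).2 hy hx

end Pool.Agent.Helper13.RG
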