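import Pool.Agent.Helper13.RG.Final
import Pool.Agent.Helper14.BSC.All
import Pool.Agent.Helper13.ZL.All
import Pool.Agent.Helper13.RG.Final
import Pool.Agent.Helper13.RG.ISO
import Pool.Agent.Helper13.RG.TRV
import Pool.Agent.Helper13.RG.UNG
import Pool.Agent.Helper18.TW.RPL
import Pool.Agent.Helper20.RG.VOV
import Pool.Agent.Helper30.FFI.BCS
import Pool.Agent.Helper33.RG.GBC
import Pool.Agent.Helper44.RG.EXB
import Pool.Agent.Helper44.RG.RIGD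
import Pool.Agent.Helper44.RG.TCV
import Pool.Agent.Helper46.RG.EX1
import Pool.Agent.Helper48.TW.PL
import Pool.Agent.Helper48.TW.UNQ
import Pool.Agent.Helper50.RG.NGB
import Pool.Agent.Helper61.RG.CLO
import Pool.Agent.Helper72.FFI.DWG
import Pool.Agent.Helper74.RG.TRP
import Pool.Agent.Helper77.RG.UNE
import Pool.Agent.Helper78.RG.COE
import Pool.Agent.Helper8.RG.CNJ
import Pool.Agent.Helper8.RG.EQA
import Pool.Agent.Helper83.RG.COW
import Pool.Agent.Helper85.RG.SAM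
import Pool.Agent.Helper94.RG.AUT
import Pool.Agent.Helper94.RG.EQB
import Pool.Agent.Helper95.RG.EXI
import Pool.Agent.Helper99.RG.NULS

/-!
# Assembly of the modules of the rigidity theorem for birational sections (MP_8312c9_nt)
-/

set_option autoImplicit false

namespace Pool.Agent.Helper13.RG

theorem rg_NUL : Pool.Agent.Helper13.RG.ST_NUL := Pool.Agent.Helper99.RG.st_NUL Pool.Agent.Helper13.ZL.all_DLIB Pool.Agent.Helper13.ZL.all_COP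
theorem rg_CLO : Pool.Agent.Helper13.RG.ST_CLO := Pool.Agent.Helper13.RG.st_CLO
theorem tw_UNQ : Pool.Agent.Helper22.TW.ST_UNQ := Pool.Agent.Helper22.TW.st_UNQ Pool.Agent.Helper14.BSC.all_KUM Pool.Agent.Helper14.BSC.all_BOT Pool.Agent.Helper14.BSC.all_LIM
theorem tw_PL : Pool.Agent.Helper22.TW.ST_PL := Pool.Agent.Helper22.TW.st_PL tw_UNQ Pool.Agent.Helper14.BSC.all_KUM Pool.Agent.Helper14.BSC.all_ROOT Pool.Agent.Helper14.BSC.all_BOT Pool.Agent.Helper14.BSC.all_EFIN Pool.Agent.Helper14.BSC.all_RK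
theorem rg_COW : Pool.Agent.Helper13.RG.ST_COW := Pool.Agent.Helper13.RG.st_COW rg_CLO tw_PL
theorem rg_EQA : Pool.Agent.Helper13.RG.ST_EQA := Pool.Agent.Helper13.RG.st_EQA rg_NUL rg_COW Pool.Agent.Helper13.ZL.all_DEN Pool.Agent.Helper14.BSC.all_KUM Pool.Agent.Helper14.BSC.all_BOT Pool.Agent.Helper13.ZL.all_DLIB
theorem rg_EQB : Pool.Agent.Helper13.RG.ST_EQB := Pool.Agent.Helper13.RG.st_EQB rg_CLO tw_PL Pool.Agent.Helper14.BSC.all_EFIN
theorem fi_BCS : Pool.Agent.Helper22.FF.ST_BCS := Pool.Agent.Helper22.FF.st_BCS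
theorem rg_GBC : Pool.Agent.Helper13.RG.ST_GBC := Pool.Agent.Helper33.RG.st_GBC fi_BCS
theorem rg_VOV : Pool.Agent.Helper13.RG.ST_VOV := Pool.Agent.Helper13.RG.st_VOV
theorem rg_PEX : Pool.Agent.Helper13.RG.ST_PEX := Pool.Agent.Helper13.RG.st_PEX rg_CLO Pool.Agent.Helper14.BSC.all_RK
theorem rg_EXB : Pool.Agent.Helper13.RG.ST_EXB := Pool.Agent.Helper13.RG.st_EXB
theorem tw_RPL : Pool.Agent.Helper22.TW.ST_RPL := Pool.Agent.Helper22.TW.st_RPL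
theorem fi_DWG : Pool.Agent.Helper22.FF.ST_DWG := Pool.Agent.Helper22.FF.st_DWG tw_RPL tw_UNQ
theorem rg_ORB : Pool.Agent.Helper13.RG.ST_ORB := Pool.Agent.Helper13.RG.st_ORB
theorem rg_TRP : Pool.Agent.Helper13.RG.ST_TRP := Pool.Agent.Helper13.RG.st_TRP
theorem rg_TRV : Pool.Agent.Helper13.RG.ST_TRV := Pool.Agent.Helper13.RG.st_TRV rg_TRP
theorem rg_NGB : Pool.Agent.Helper13.RG.ST_NGB := Pool.Agent.Helper13.RG.st_NGB Pool.Agent.Helper13.ZL.all_ZERO rg_VOV Pool.Agent.Helper13.ZL.all_COI Pool.Agent.Helper13.ZL.all_COP Pool.Agent.Helper13.ZL.all_VEMB rg_PEX rg_EXB fi_DWG rg_ORB rg_TRV Pool.Agent.Helper13.ZL.all_DLIB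
theorem rg_EX1 : Pool.Agent.Helper13.RG.ST_EX1 := Pool.Agent.Helper13.RG.st_EX1 rg_NUL rg_EQA rg_EQB Pool.Agent.Helper13.ZL.all_VEMB rg_PEX Pool.Agent.Helper13.ZL.all_DLIB
theorem rg_SAM : Pool.Agent.Helper13.RG.ST_SAM := Pool.Agent.Helper13.RG.st_SAM rg_PEX rg_EXB fi_DWG
theorem rg_UNE : Pool.Agent.Helper13.RG.ST_UNE := Pool.Agent.Helper77.RG.st_UNE Pool.Agent.Helper13.ZL.all_DLIB Pool.Agent.Helper13.ZL.all_VEMB rg_PEX rg_NUL
theorem rg_EXI : Pool.Agent.Helper13.RG.ST_EXI := Pool.Agent.Helper13.RG.st_EXI rg_GBC rg_NGB rg_EX1 rg_SAM rg_TRV rg_UNE rg_PEX fi_DWG Pool.Agent.Helper14.BSC.all_BOT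
theorem rg_SYM : Pool.Agent.Helper13.RG.ST_SYM := Pool.Agent.Helper13.RG.st_SYM
theorem rg_ISO : Pool.Agent.Helper13.RG.ST_ISO := Pool.Agent.Helper13.RG.st_ISO rg_NUL rg_UNE Pool.Agent.Helper13.ZL.all_VEMB rg_PEX Pool.Agent.Helper13.ZL.all_DLIB
theorem rg_AUT : Pool.Agent.Helper13.RG.ST_AUT := Pool.Agent.Helper13.RG.st_AUT rg_ORB
theorem rg_CNJ : Pool.Agent.Helper13.RG.ST_CNJ := Pool.Agent.Helper13.RG.st_CNJ rg_AUT
theorem rg_RIGD : Pool.Agent.Helper13.RG.ST_RIGD := Pool.Agent.Helper13.RG.st_RIGD rg_EQA rg_EQB rg_EXI rg_SYM rg_ISO rg_CNJ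
theorem rg_COE : Pool.Agent.Helper13.RG.ST_COE := Pool.Agent.Helper13.RG.st_COE rg_CLO Pool.Agent.Helper14.BSC.all_EFIN tw_PL
theorem rg_TCV : Pool.Agent.Helper13.RG.ST_TCV := Pool.Agent.Helper13.RG.st_TCV rg_NUL rg_COE Pool.Agent.Helper13.ZL.all_VEMB rg_PEX Pool.Agent.Helper13.ZL.all_DLIB
theorem rg_UNG : Pool.Agent.Helper13.RG.ST_UNG := Pool.Agent.Helper13.RG.st_UNG rg_TRP tw_UNQ rg_UNE rg_AUT
theorem rg_I : Pool.Agent.Helper13.RG.ST_I := Pool.Agent.Helper13.RG.st_I rg_RIGD rg_TCV Pool.Agent.Helper13.ZL.all_ZLD Pool.Agent.Helper14.BSC.all_ALG rg_UNG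

end Pool.Agent.Helper13.RG
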