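import Pool.Agent.Helper13.ZL.Stmts
import Pool.Agent.Helper22.TW.Stmts
import Pool.Agent.Helper22.FF.Abs

/-!
# Rigidity of birational sections over number fields: exact statements of the modules
Proofs: /team-store/rg_blueprint.md

`D`, `D'` are two sections over the number field `k` (in the same algebraically closed field `Ω`).
`LL D` is the fixed field.  Over every embedding `σ : k →+* ℂ_[p]` there is exactly one place of `D` (RK, UNQ)
-/

set_option autoImplicit false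

open scoped Classical

namespace Pool.Agent.Helper13.RG

open Pool.Agent.Helper14.BSC Pool.Agent.Helper13.ZL

/-- density `0` -/
abbrev Null {k : Type} [Field k] [NumberField k] (S : Set (Pl k)) : Prop :=
  NumberField.Set.HasDirichletDensity S 0

section

variable {k Ω : Type} [Field k] [Field Ω] [Algebra k Ω]

/-- nonconstant elements -/
def NC (D : Sec k Ω) (x : LL D) : Prop := ∀ c : k, x ≠ algebraMap k (LL D) c

/-- `x` and `y` have the same value at `P` and `P'` -/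
def SV {D D' : Sec k Ω} {p : ℕ} [Fact p.Prime] {σ : k →+* ℂ_[p]} (P : Place D p σ) (P' : Place D' p σ)
    (x : LL D) (y : LL D') : Prop :=
  (x ∈ P.C ↔ y ∈ P'.C) ∧ ∀ (hx : x ∈ P.C) (hy : y ∈ P'.C), P.φ ⟨x, hx⟩ = P'.φ ⟨y, hy⟩

/-- `x` and `y` have the same value everywhere -/
def AllSame (D D' : Sec k Ω) (x : LL D) (y : LL D') : Prop :=
  ∀ (p : ℕ) [Fact p.Prime] (σ : k →+* ℂ_[p]) (P : Place D p σ) (P' : Place D' p σ), SV P P' x y

/-- `x` and `y` have the same class modulo `ℓ`-th powers -/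
def SL (D D' : Sec k Ω) (ℓ : ℕ) (x : LL D) (y : LL D') : Prop :=
  ∃ (a : k) (g : LL D) (g' : LL D'),
    x = algebraMap k (LL D) a * g ^ ℓ ∧ y = algebraMap k (LL D') a * g' ^ ℓ

end

section

variable {k Ω : Type} [Field k] [NumberField k] [Field Ω] [Algebra k Ω]

/-- `D` is not geometric, in the form of the zero-one law -/
def NG (D : Sec k Ω) : Prop := ∀ h : LL D, NC D h → Null {v : Pl k | CO D v h}

/-- the places where the values of `x` and `y` are congruent -/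
def CV (D D' : Sec k Ω) (x : LL D) (y : LL D') : Set (Pl k) :=
  {v | ∃ (p : ℕ) (_ : Fact p.Prime) (σ : k →+* ℂ_[p]) (P : Place D p σ) (P' : Place D' p σ)
    (hx : x ∈ P.C) (hy : y ∈ P'.C), OverPl v σ ∧ ‖P.φ ⟨x, hx⟩ - P'.φ ⟨y, hy⟩‖ < 1}

/-- the Kummer classes of `x` and `y` are congruent modulo `v` -/
def CE (D D' : Sec k Ω) (v : Pl k) (x : LL D) (y : LL D') : Prop :=
  ∀ n : ℕ, 0 < n → ∃ (b b' : k) (g : LL D) (g' : LL D'),
    x = algebraMap k (LL D) b * g ^ n ∧ y = algebraMap k (LL D') b' * g' ^ n ∧ Near v (b / b')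

/-- the places where the value of `x` is `∞` -/
def INF (D : Sec k Ω) (x : LL D) : Set (Pl k) :=
  {v | ∃ (p : ℕ) (_ : Fact p.Prime) (σ : k →+* ℂ_[p]) (P : Place D p σ), OverPl v σ ∧ x ∉ P.C}

/-- the places where the value of `x` is `0` -/
def ZVL (D : Sec k Ω) (x : LL D) : Set (Pl k) :=
  {v | ∃ (p : ℕ) (_ : Fact p.Prime) (σ : k →+* ℂ_[p]) (P : Place D p σ) (h : x ∈ P.C),
    OverPl v σ ∧ P.φ ⟨x, h⟩ = 0}

/-- the places where the value of `x` is not of absolute value `1` -/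
def NUV (D : Sec k Ω) (x : LL D) : Set (Pl k) :=
  {v | ∃ (p : ℕ) (_ : Fact p.Prime) (σ : k →+* ℂ_[p]) (P : Place D p σ),
    OverPl v σ ∧ ¬ ∃ h : x ∈ P.C, ‖P.φ ⟨x, h⟩‖ = 1}

end

/-! ## A. Embeddings -/

/-- CLO: a dense embedding in a finite extension of `ℚ_p`. -/
def ST_CLO : Prop :=
  ∀ (k : Type) [Field k] [NumberField k] (p : ℕ) [Fact p.Prime] (σ : k →+* ℂ_[p]),
    ∃ E₀ : IntermediateField ℚ_[p] ℂ_[p], FiniteDimensional ℚ_[p] E₀ ∧ (∀ x, σ x ∈ E₀) ∧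
      ∀ z ∈ E₀, ∀ δ : ℝ, 0 < δ → ∃ a : k, ‖σ a - z‖ < δ

/-- VOV: every embedding induces a finite place. -/
def ST_VOV : Prop :=
  ∀ (k : Type) [Field k] [NumberField k] (p : ℕ) [Fact p.Prime] (σ : k →+* ℂ_[p]),
    ∃ v : Pl k, OverPl v σ

/-- EXB: extension of embeddings. -/
def ST_EXB : Prop :=
  ∀ (k k₁ : Type) [Field k] [Field k₁] [NumberField k₁] (j : k →+* k₁) (p : ℕ) [Fact p.Prime]
    (σ : k →+* ℂ_[p]), ∃ σ₁ : k₁ →+* ℂ_[p], ∀ c, σ₁ (j c) = σ c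

/-- PEX: existence of places. -/
def ST_PEX : Prop :=
  ∀ (k Ω : Type) [Field k] [NumberField k] [Field Ω] [Algebra k Ω] [IsAlgClosed Ω] (D : Sec k Ω)
    (p : ℕ) [Fact p.Prime] (σ : k →+* ℂ_[p]), Nonempty (Place D p σ)

/-! ## B. Null sets -/

/-- NUL: for a nongeometric section, values `≡ 0`, `∞`, `0`, nonunits only occur on a null set. -/
def ST_NUL : Prop :=
  ∀ (k Ω : Type) [Field k] [NumberField k] [Field Ω] [Algebra k Ω] [IsAlgClosed Ω] (D : Sec k Ω),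
    NG D → (∀ h : LL D, NC D h → Null (SetZ D h)) ∧ (∀ x : LL D, Null (INF D x)) ∧
      (∀ x : LL D, x ≠ 0 → Null (ZVL D x)) ∧ ∀ x : LL D, NC D x → Null (NUV D x)

/-- UNE: elements with the same values are equal. -/
def ST_UNE : Prop :=
  ∀ (k Ω : Type) [Field k] [NumberField k] [Field Ω] [Algebra k Ω] [IsAlgClosed Ω] (D' : Sec k Ω),
    NG D' → (∀ x y : LL D', ¬ Null {v : Pl k | ∃ (p : ℕ) (_ : Fact p.Prime) (σ : k →+* ℂ_[p])
      (P : Place D' p σ) (hx : x ∈ P.C) (hy : y ∈ P.C), OverPl v σ ∧ P.φ ⟨x, hx⟩ = P.φ ⟨y, hy⟩} →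
      x = y) ∧
    (∀ (D : Sec k Ω) (x : LL D) (y y' : LL D'), AllSame D D' x y → AllSame D D' x y' → y = y') ∧
    ∀ (D : Sec k Ω) (x : LL D) (y y' : LL D'), AllSame D' D y x → AllSame D' D y' x → y = y'

/-! ## C. Congruent values -/

/-- COW: congruent values give congruent classes. -/
def ST_COW : Prop :=
  ∀ (k Ω : Type) [Field k] [NumberField k] [Field Ω] [Algebra k Ω] [IsAlgClosed Ω] (D D' : Sec k Ω)
    (v : Pl k) (p : ℕ) [Fact p.Prime] (σ : k →+* ℂ_[p]) (P : Place D p σ) (P' : Place D' p σ),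
    OverPl v σ → ∀ (x : P.C) (y : P'.C), ‖P.φ x‖ = 1 → ‖P.φ x - P'.φ y‖ < 1 →
    ∀ (ℓ : ℕ), 0 < ℓ → ∀ (a a' : k) (g : LL D) (g' : LL D'),
      (x : LL D) = algebraMap k (LL D) a * g ^ ℓ → (y : LL D') = algebraMap k (LL D') a' * g' ^ ℓ →
      ∃ t : k, Near v (a / a' * t ^ ℓ)

/-- COE: congruent classes give congruent values. -/
def ST_COE : Prop :=
  ∀ (k Ω : Type) [Field k] [NumberField k] [Field Ω] [Algebra k Ω] [IsAlgClosed Ω] (D D' : Sec k Ω)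
    (v : Pl k) (p : ℕ) [Fact p.Prime] (σ : k →+* ℂ_[p]) (P : Place D p σ) (P' : Place D' p σ),
    OverPl v σ → ∀ (x : P.C) (y : P'.C), ‖P.φ x‖ = 1 → ‖P'.φ y‖ = 1 →
      CE D D' v (x : LL D) (y : LL D') → ‖P.φ x - P'.φ y‖ < 1

/-- TCV: congruent classes at a nonnull set of places. -/
def ST_TCV : Prop :=
  ∀ (k Ω : Type) [Field k] [NumberField k] [Field Ω] [Algebra k Ω] [IsAlgClosed Ω] (D D' : Sec k Ω),
    NG D → NG D' → ∀ (x : LL D) (y : LL D'), NC D x → NC D' y →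
      ¬ Null {v : Pl k | CE D D' v x y} → ¬ Null (CV D D' x y)

/-- EQA: congruent values at a nonnull set of places give equal classes modulo most primes. -/
def ST_EQA : Prop :=
  ∀ (k Ω : Type) [Field k] [NumberField k] [Field Ω] [Algebra k Ω] [IsAlgClosed Ω] (D D' : Sec k Ω),
    NG D → NG D' → ∀ (x : LL D) (y : LL D'), NC D x → NC D' y → ¬ Null (CV D D' x y) →
      ∀ c : k, ∃ Ls : Set ℕ, Summable (fun ℓ : Ls => 1 / ((ℓ : ℕ) : ℝ)) ∧
        ∀ ℓ : ℕ, ℓ.Prime → ℓ ∉ Ls →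
          SL D D' ℓ (x - algebraMap k (LL D) c) (y - algebraMap k (LL D') c)

/-- EQB: equal classes modulo most primes give equal values. -/
def ST_EQB : Prop :=
  ∀ (k Ω : Type) [Field k] [NumberField k] [Field Ω] [Algebra k Ω] [IsAlgClosed Ω] (D D' : Sec k Ω)
    (x : LL D) (y : LL D'),
    (∀ c : k, ∃ Ls : Set ℕ, Summable (fun ℓ : Ls => 1 / ((ℓ : ℕ) : ℝ)) ∧
      ∀ ℓ : ℕ, ℓ.Prime → ℓ ∉ Ls →
        SL D D' ℓ (x - algebraMap k (LL D) c) (y - algebraMap k (LL D') c)) → AllSame D D' x y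

/-! ## D. Base change -/

/-- `D₁` is the base change of `D` to a finite Galois extension `k₁` of `k` -/
structure IsBC {k k₁ Ω : Type} [Field k] [Field k₁] [Field Ω] [Algebra k Ω] [Algebra k₁ Ω]
    (j : k →+* k₁) (D : Sec k Ω) (D₁ : Sec k₁ Ω) : Prop where
  hj : ∀ c, algebraMap k₁ Ω (j c) = algebraMap k Ω c
  sub : ∀ x : Ω, x ∈ LL D → x ∈ LL D₁
  stk : ∀ (g : GG k Ω) (c : k₁), ∃ c' : k₁, D.s g (algebraMap k₁ Ω c) = algebraMap k₁ Ω c'
  stL : ∀ (g : GG k Ω) (x : Ω), x ∈ LL D₁ → D.s g x ∈ LL D₁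

/-- GBC: existence of base changes. -/
def ST_GBC : Prop :=
  ∀ (k Ω : Type) [Field k] [NumberField k] [Field Ω] [Algebra k Ω] [IsAlgClosed Ω] (D D' : Sec k Ω)
    (X : Finset Ω),
    ∃ (k₁ : Type) (_ : Field k₁) (_ : NumberField k₁) (_ : Algebra k₁ Ω) (j : k →+* k₁)
      (D₁ D₁' : Sec k₁ Ω), IsBC j D D₁ ∧ IsBC j D' D₁' ∧ ∀ x ∈ X, x ∈ LL D₁ ∧ x ∈ LL D₁'

/-- TRP: transport of a place. -/
def ST_TRP : Prop :=
  ∀ (k Ω : Type) [Field k] [Field Ω] [Algebra k Ω] (D : Sec k Ω) (p : ℕ) [Fact p.Prime]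
    (σ : k →+* ℂ_[p]) (P : Place D p σ) (τ : k →+* k) (G : LL D →+* LL D),
    (∀ c, G (algebraMap k (LL D) c) = algebraMap k (LL D) (τ c)) →
    ∃ P' : Place D p (σ.comp τ), ∀ x : LL D, (G x ∈ P.C ↔ x ∈ P'.C) ∧
      ∀ (h : G x ∈ P.C) (hx : x ∈ P'.C), P.φ ⟨G x, h⟩ = P'.φ ⟨x, hx⟩

/-- TRV: values of conjugates. -/
def ST_TRV : Prop :=
  ∀ (k k₁ Ω : Type) [Field k] [Field k₁] [Field Ω] [Algebra k Ω] [Algebra k₁ Ω] (j : k →+* k₁)
    (D : Sec k Ω) (D₁ : Sec k₁ Ω), IsBC j D D₁ → ∀ (g : GG k Ω) (x y : LL D₁),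
    (y : Ω) = D.s g (x : Ω) → ∀ (p : ℕ) [Fact p.Prime] (σ : k₁ →+* ℂ_[p]) (P : Place D₁ p σ),
    ∃ (σ' : k₁ →+* ℂ_[p]) (P' : Place D₁ p σ'), (∀ c : k, σ' (j c) = σ (j c)) ∧
      (y ∈ P.C ↔ x ∈ P'.C) ∧ ∀ (hy : y ∈ P.C) (hx : x ∈ P'.C), P.φ ⟨y, hy⟩ = P'.φ ⟨x, hx⟩

/-- SAM: same values before and after base change. -/
def ST_SAM : Prop :=
  ∀ (k k₁ Ω : Type) [Field k] [NumberField k] [Field k₁] [NumberField k₁] [Field Ω] [Algebra k Ω]
    [Algebra k₁ Ω] [IsAlgClosed Ω] (j : k →+* k₁) (D D' : Sec k Ω) (D₁ D₁' : Sec k₁ Ω),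
    IsBC j D D₁ → IsBC j D' D₁' → ∀ (x : LL D) (y : LL D') (x₁ : LL D₁) (y₁ : LL D₁'),
    (x : Ω) = (x₁ : Ω) → (y : Ω) = (y₁ : Ω) → (AllSame D D' x y ↔ AllSame D₁ D₁' x₁ y₁)

/-- ORB: orbits are finite. -/
def ST_ORB : Prop :=
  ∀ (k Ω : Type) [Field k] [Field Ω] [Algebra k Ω] (D : Sec k Ω) (x : Ω),
    ∃ F : Finset Ω, (∀ y, y ∈ F ↔ ∃ g : GG k Ω, D.s g x = y) ∧ ∏ y ∈ F, y ∈ LL D

/-- NGB: base changes of nongeometric sections are nongeometric. -/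
def ST_NGB : Prop :=
  ∀ (k k₁ Ω : Type) [Field k] [NumberField k] [Field k₁] [NumberField k₁] [Field Ω] [Algebra k Ω]
    [Algebra k₁ Ω] [IsAlgClosed Ω] (j : k →+* k₁) (D : Sec k Ω) (D₁ : Sec k₁ Ω),
    IsBC j D D₁ → NG D → NG D₁

/-! ## E. The isomorphism of the fixed fields -/

/-- EX1: existence of an element with the same values, if the polynomial splits. -/
def ST_EX1 : Prop :=
  ∀ (k Ω : Type) [Field k] [NumberField k] [Field Ω] [Algebra k Ω] [IsAlgClosed Ω] (D D' : Sec k Ω),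
    NG D → NG D' → ∀ (f x : LL D) (f' : LL D'), AllSame D D' f f' → NC D x →
    ∀ G : Polynomial (Polynomial k), Polynomial.eval₂ (Polynomial.aeval f).toRingHom x G = 0 →
    ∀ (Z : Multiset (LL D')) (a : LL D'), a ≠ 0 →
      G.map (Polynomial.aeval f').toRingHom =
        Polynomial.C a * (Z.map (fun z => Polynomial.X - Polynomial.C z)).prod →
      ∃ y : LL D', AllSame D D' x y

/-- EXI: existence of an element with the same values. -/
def ST_EXI : Prop :=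
  ∀ (k Ω : Type) [Field k] [NumberField k] [Field Ω] [Algebra k Ω] [IsAlgClosed Ω] (D D' : Sec k Ω),
    NG D → NG D' → ∀ (f : LL D) (f' : LL D'), NC D f → NC D' f' → AllSame D D' f f' → ∀ x : LL D,
    (∃ G : Polynomial (Polynomial k), G ≠ 0 ∧
      Polynomial.eval₂ (Polynomial.aeval f).toRingHom x G = 0) → ∃ y : LL D', AllSame D D' x y

/-- SYM: symmetry. -/
def ST_SYM : Prop :=
  ∀ (k Ω : Type) [Field k] [Field Ω] [Algebra k Ω] (D D' : Sec k Ω) (x : LL D) (y : LL D'),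
    AllSame D D' x y → AllSame D' D y x

/-- ISO: the isomorphism. -/
def ST_ISO : Prop :=
  ∀ (k Ω : Type) [Field k] [NumberField k] [Field Ω] [Algebra k Ω] [IsAlgClosed Ω] (D D' : Sec k Ω),
    NG D → NG D' → (∀ x : LL D, ∃ y : LL D', AllSame D D' x y) →
    (∀ y : LL D', ∃ x : LL D, AllSame D' D y x) →
    ∃ ψ : LL D ≃ₐ[k] LL D', ∀ (x : LL D) (y : LL D'), AllSame D D' x y → ψ x = y

/-- AUT: `Ω` is generated by the fixed field and the algebraic elements. -/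
def ST_AUT : Prop :=
  ∀ (k Ω : Type) [Field k] [Field Ω] [Algebra k Ω] [CharZero k] [IsAlgClosed Ω] (D : Sec k Ω)
    (τ : Ω ≃ₐ[k] Ω), (∀ x : LL D, τ (x : Ω) = x) → (∀ a : Acl k Ω, τ (a : Ω) = a) → τ = 1

/-- CNJ: conjugation. -/
def ST_CNJ : Prop :=
  ∀ (k Ω : Type) [Field k] [Field Ω] [Algebra k Ω] [CharZero k] [IsAlgClosed Ω] (D D' : Sec k Ω),
    (∀ x : Ω, IsAlgebraic (LL D) x) → (∀ x : Ω, IsAlgebraic (LL D') x) →
    ∀ ψ : LL D ≃ₐ[k] LL D', ∃ γ : Ω ≃ₐ[k] Ω, (∀ a : Acl k Ω, γ (a : Ω) = a) ∧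
      (∀ x : LL D, γ (x : Ω) = (ψ x : Ω)) ∧ ∀ (g : GG k Ω) (x : Ω), γ (D.s g x) = D'.s g (γ x)

/-- RIGD: rigidity for nongeometric sections. -/
def ST_RIGD : Prop :=
  ∀ (k Ω : Type) [Field k] [NumberField k] [Field Ω] [Algebra k Ω] [IsAlgClosed Ω] (D D' : Sec k Ω),
    NG D → NG D' → (∀ x : Ω, IsAlgebraic (LL D) x) → (∀ x : Ω, IsAlgebraic (LL D') x) →
    (∀ y z : LL D, NC D y → ∃ G : Polynomial (Polynomial k), G ≠ 0 ∧
      Polynomial.eval₂ (Polynomial.aeval y).toRingHom z G = 0) →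
    (∀ y z : LL D', NC D' y → ∃ G : Polynomial (Polynomial k), G ≠ 0 ∧
      Polynomial.eval₂ (Polynomial.aeval y).toRingHom z G = 0) →
    ∀ R : Set (LL D × LL D'), R.Nonempty →
      (∀ r ∈ R, NC D r.1 ∧ NC D' r.2 ∧ ¬ Null (CV D D' r.1 r.2)) →
      ∃ γ : Ω ≃ₐ[k] Ω, (∀ a : Acl k Ω, γ (a : Ω) = a) ∧
        (∀ r ∈ R, γ ((r.1 : LL D) : Ω) = ((r.2 : LL D') : Ω)) ∧
        ∀ (g : GG k Ω) (x : Ω), γ (D.s g x) = D'.s g (γ x)

/-! ## F. Geometric sections, the theorem -/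

/-- GE1: classes of units at a geometric section. -/
def ST_GE1 : Prop :=
  ∀ (k K Ω : Type) [Field k] [Field K] [Field Ω] [Algebra k K] [Algebra K Ω] [Algebra k Ω]
    [IsScalarTower k K Ω] [CharZero k] [IsAlgClosed Ω] (D : Sec k Ω) (O : ValuationSubring K),
    GeoV k K Ω D O → ∀ (f : K) (c : k), c ≠ 0 → O.valuation (f - algebraMap k K c) < 1 →
    ∀ x : LL D, (x : Ω) = algebraMap K Ω f → ∀ n : ℕ, 0 < n →
      ∃ g : LL D, x = algebraMap k (LL D) c * g ^ n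

/-- GE2: approximation. -/
def ST_GE2 : Prop :=
  ∀ (k K : Type) [Field k] [CharZero k] [Field K] [Algebra k K] (O O' : ValuationSubring K),
    (∀ c : k, algebraMap k K c ∈ O) → (∀ a ∈ O, ∃ c : k, O.valuation (a - algebraMap k K c) < 1) →
    (∀ c : k, algebraMap k K c ∈ O') → (∀ a ∈ O', ∃ c : k, O'.valuation (a - algebraMap k K c) < 1) →
    O ≠ O' → ∃ f : K, f ∉ (algebraMap k K).range ∧ O.valuation (f - algebraMap k K 1) < 1 ∧
      O'.valuation (f - algebraMap k K 2) < 1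

/-- GE3: `2` is an `n`-th power modulo `v` for all `n` only for finitely many `v`. -/
def ST_GE3 : Prop :=
  ∀ (k : Type) [Field k] [NumberField k],
    Null {v : Pl k | ∀ n : ℕ, 0 < n → ∃ t : k, Near v (t ^ n / 2)}

/-- GEO: the geometric case. -/
def ST_GEO : Prop :=
  ∀ (k K Ω : Type) [Field k] [NumberField k] [Field K] [Field Ω] [Algebra k K] [Algebra K Ω]
    [Algebra k Ω] [IsScalarTower k K Ω] [IsAlgClosed Ω] [Algebra.IsAlgebraic K Ω] (D D' : Sec k Ω),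
    (∃ t : K, Transcendental k t ∧ Algebra.IsAlgebraic (IntermediateField.adjoin k {t}) K) →
    (∀ (g : GG k Ω) (x : K), D.s g (algebraMap K Ω x) = algebraMap K Ω x) →
    (∀ (g : GG k Ω) (x : K), D'.s g (algebraMap K Ω x) = algebraMap K Ω x) →
    (∀ f : K, f ∉ (algebraMap k K).range → ∀ (x : LL D) (y : LL D'), (x : Ω) = algebraMap K Ω f →
      (y : Ω) = algebraMap K Ω f → ¬ Null {v : Pl k | CE D D' v x y}) →
    ∀ O : ValuationSubring K, GeoV k K Ω D O → GeoV k K Ω D' O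

/-- SEC: sections as homomorphisms. -/
def ST_SEC : Prop :=
  ∀ (k K Ω : Type) [Field k] [Field K] [Field Ω] [Algebra k K] [Algebra K Ω] [Algebra k Ω]
    [IsScalarTower k K Ω] [Algebra.IsAlgebraic K Ω] (s : GG k Ω →* (Ω ≃ₐ[K] Ω)), Continuous s →
    (∀ (g : GG k Ω) (x : Acl k Ω), s g (x : Ω) = ((g x : Acl k Ω) : Ω)) →
    ∃ D : Sec k Ω, ∀ (g : GG k Ω) (x : Ω), D.s g x = s g x

end Pool.Agent.Helper13.RG
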